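import Mathlib
import Pool.Agent.Lib.MP_02fec8_nt.Defs
import Pool.Agent.Lib.MP_02fec8_nt.Final
import Pool.Agent.Lib.MP_02fec8_nt.NV
import Pool.Agent.Lib.MP_02fec8_nt.Mert
import Pool.Agent.Lib.MP_02fec8_nt.Few
import Pool.Agent.Lib.MP_02fec8_nt.Dens

/-!
MP_02fec8_nt: optimal zero-sum-free sets of residues modulo an even number (Selfridge).
-/

set_option autoImplicit false

namespace Pool.Agent.Results.MP_02fec8_nt.LargePrimeFactor

open Finset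

/-- A set of residues modulo `m` is zero-sum-free if no nonempty subset has sum `0`. -/
def ZeroSumFree {m : ℕ} (S : Finset (ZMod m)) : Prop :=
  ∀ T ⊆ S, T.Nonempty → ∑ t ∈ T, t ≠ 0

/-- `k(m)`: the largest cardinality of a zero-sum-free set of residues modulo `m`. -/
noncomputable def k (m : ℕ) : ℕ :=
  sSup {n | ∃ S : Finset (ZMod m), ZeroSumFree S ∧ S.card = n}

/-- `A_l = {1, ..., l} ∪ {m/2, m/2 + 1, ..., m/2 + l}`. -/
def A (m l : ℕ) : Finset (ZMod m) :=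
  (Icc 1 l).image (fun i : ℕ => (i : ZMod m)) ∪
    (Icc (m / 2) (m / 2 + l)).image (fun i : ℕ => (i : ZMod m))

/-- `B_l = A_l \ {l}`. -/
def B (m l : ℕ) : Finset (ZMod m) := (A m l).erase (l : ZMod m)

/-- `s(m)`: the largest cardinality of a zero-sum-free set among the `A_l`, `B_l`, `1 ≤ l < m/2`. -/
noncomputable def s (m : ℕ) : ℕ :=
  sSup {n | ∃ l, 1 ≤ l ∧ l < m / 2 ∧
    ((ZeroSumFree (A m l) ∧ (A m l).card = n) ∨ (ZeroSumFree (B m l) ∧ (B m l).card = n))}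

open Classical in
theorem result :
    -- (i) explicit upper bound for `m = cp`, `c` even, `p ≥ 100 c^3` prime
    (∀ c p : ℕ, Even c → 0 < c → p.Prime → 100 * c ^ 3 ≤ p →
      4 * k (c * p) ^ 2 + 2 * c ≤ 8 * (c * p) + c ^ 2) ∧
    -- (ii) for these `m`, `k(m) ≤ s(m) + 1` ...
    (∀ c p : ℕ, Even c → 0 < c → p.Prime → 100 * c ^ 3 ≤ p → k (c * p) ≤ s (c * p) + 1) ∧
    -- (iii) ... and `k(m) = s(m)` unless a square lies in `(2m - 3, 2m + c^2/4 - c/2]`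
    (∀ c p : ℕ, Even c → 0 < c → p.Prime → 100 * c ^ 3 ≤ p →
      (∀ q : ℕ, q ^ 2 + 3 ≤ 2 * (c * p) ∨ 8 * (c * p) + c ^ 2 < 4 * q ^ 2 + 2 * c) →
      k (c * p) = s (c * p)) ∧
    -- (iv) the conjecture for `m = 4p, 6p, 8p`, `p` large
    (∀ c p : ℕ, (c = 4 ∨ c = 6 ∨ c = 8) → p.Prime → 100 * c ^ 3 ≤ p →
      k (c * p) = s (c * p)) ∧
    -- (v) the conjecture for a set of even `m` of relative lower density `≥ log (4/3) = 0.2876...`
    (∀ ε : ℝ, 0 < ε → ∃ X : ℕ, ∀ x : ℕ, X ≤ x →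
      (Real.log (4 / 3) - ε) * ((x : ℝ) / 2) ≤
        (((Icc 1 x).filter (fun m : ℕ => Even m ∧ 6 ≤ m ∧ k m = s m)).card : ℝ)) := by
  have hb := Pool.Agent.Lib.MP_02fec8_nt.bound_fin Pool.Agent.Lib.MP_02fec8_nt.nvB
    Pool.Agent.Lib.MP_02fec8_nt.nvD Pool.Agent.Lib.MP_02fec8_nt.nvH
  refine ⟨?_, ?_, ?_, ?_, ?_⟩
  · exact hb
  · exact Pool.Agent.Lib.MP_02fec8_nt.succ_fin hb
  · exact Pool.Agent.Lib.MP_02fec8_nt.gap_fin hb
  · exact Pool.Agent.Lib.MP_02fec8_nt.smallC hb Pool.Agent.Lib.MP_02fec8_nt.cons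
  · exact Pool.Agent.Lib.MP_02fec8_nt.dens Pool.Agent.Lib.MP_02fec8_nt.mert
      Pool.Agent.Lib.MP_02fec8_nt.few hb
      Pool.Agent.Lib.MP_02fec8_nt.cons

end Pool.Agent.Results.MP_02fec8_nt.LargePrimeFactor
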