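import Mathlib
import Pool.Agent.Lib.MP_02fec8_nt.Defs
import Pool.Agent.Lib.MP_02fec8_nt.Final
import Pool.Agent.Lib.MP_02fec8_nt.NV

/-!
MP_02fec8_nt: optimal zero-sum-free sets of residues modulo an even number (Selfridge).
-/

set_option autoImplicit false

namespace Pool.Agent.Results.MP_02fec8_nt.TwicePrime

open Finset

/-- A set of residues modulo `m` is zero-sum-free if no nonempty subset has sum `0`. -/
def ZeroSumFree {m : ℕ} (S : Finset (ZMod m)) : Prop :=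
  ∀ T ⊆ S, T.Nonempty → ∑ t ∈ T, t ≠ 0

/-- `k(m)`: the largest cardinality of a zero-sum-free set of residues modulo `m`. -/
noncomputable def k (m : ℕ) : ℕ :=
  sSup {n | ∃ S : Finset (ZMod m), ZeroSumFree S ∧ S.card = n}

/-- `A_l = {1, ..., l} ∪ {m/2, m/2 + 1, ..., m/2 + l}`. -/
def A (m l : ℕ) : Finset (ZMod m) :=
  (Icc 1 l).image (fun i : ℕ => (i : ZMod m)) ∪
    (Icc (m / 2) (m / 2 + l)).image (fun i : ℕ => (i : ZMod m))

/-- `B_l = A_l \ {l}`. -/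
def B (m l : ℕ) : Finset (ZMod m) := (A m l).erase (l : ZMod m)

/-- `s(m)`: the largest cardinality of a zero-sum-free set among the `A_l`, `B_l`, `1 ≤ l < m/2`. -/
noncomputable def s (m : ℕ) : ℕ :=
  sSup {n | ∃ l, 1 ≤ l ∧ l < m / 2 ∧
    ((ZeroSumFree (A m l) ∧ (A m l).card = n) ∨ (ZeroSumFree (B m l) ∧ (B m l).card = n))}

/-- For every odd prime `p`: `k(2p) = s(2p) = floor (sqrt (4p - 3))`. -/
theorem result : ∀ p : ℕ, p.Prime → p ≠ 2 →
    k (2 * p) = s (2 * p) ∧ k (2 * p) = Nat.sqrt (4 * p - 3) :=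
  Pool.Agent.Lib.MP_02fec8_nt.twoP_fin Pool.Agent.Lib.MP_02fec8_nt.nvB
    Pool.Agent.Lib.MP_02fec8_nt.nvD Pool.Agent.Lib.MP_02fec8_nt.nvH

end Pool.Agent.Results.MP_02fec8_nt.TwicePrime
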